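import Pool.Agent.Helper50.GP.St

set_option autoImplicit false

/-!
Module PER: periodicity and commuting rows.
-/

namespace Pool.Agent.Helper95.GP

open Pool.Agent.Helper50.GP

private theorem lift_mem {ι G : Type} [Group G] (S : Subgroup G) (f : ι → G) (hf : ∀ i, f i ∈ S)
    (ω : FreeGroup ι) : FreeGroup.lift f ω ∈ S := by
  induction ω using FreeGroup.induction_on with
  | C1 => rw [map_one]; exact S.one_mem
  | of i => rw [FreeGroup.lift_apply_of]; exact hf i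
  | inv_of i ih => rw [map_inv]; exact S.inv_mem ih
  | mul a b ha hb => rw [map_mul]; exact S.mul_mem ha hb

private theorem comm_pow {G : Type} [Group G] (x c s : G) (g : ℕ) (hs : s⁻¹ * c * s = c ^ g)
    (hx : s * x = x * s) (h1 : x * (c⁻¹ * x * c) = (c⁻¹ * x * c) * x) (n : ℕ) :
    x * xl x c ((g ^ n : ℕ) : ℤ) = xl x c ((g ^ n : ℕ) : ℤ) * x := by
  induction n with
  | zero =>
    have : xl x c (((g ^ 0 : ℕ)) : ℤ) = c⁻¹ * x * c := by
      unfold xl
      simp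
    rw [this]
    exact h1
  | succ n ih =>
    have h2 := xl_conj_s x c s g hs hx ((g ^ n : ℕ) : ℤ)
    have h3 : ((g ^ (n + 1) : ℕ) : ℤ) = (g : ℤ) * ((g ^ n : ℕ) : ℤ) := by
      push_cast
      ring
    have h4 : s⁻¹ * x * s = x := by
      rw [mul_assoc, ← hx, inv_mul_cancel_left]
    rw [h3, ← h2]
    calc x * (s⁻¹ * xl x c ((g ^ n : ℕ) : ℤ) * s)
        = (s⁻¹ * x * s) * (s⁻¹ * xl x c ((g ^ n : ℕ) : ℤ) * s) := by rw [h4]
      _ = s⁻¹ * (x * xl x c ((g ^ n : ℕ) : ℤ)) * s := by group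
      _ = s⁻¹ * (xl x c ((g ^ n : ℕ) : ℤ) * x) * s := by rw [ih]
      _ = (s⁻¹ * xl x c ((g ^ n : ℕ) : ℤ) * s) * (s⁻¹ * x * s) := by group
      _ = s⁻¹ * xl x c ((g ^ n : ℕ) : ℤ) * s * x := by rw [h4]

theorem hPER : StPER := by
  intro p q m g e1 e2 hP N ω hN G _ w c hF
  have hr1 := hF.r1
  have hr2 := hF.r2
  have hr3 := hF.r3
  have hxs : w ^ (m * q) * w ^ (p * (p - 1)) = w ^ (p * (p - 1)) * w ^ (m * q) := by
    rw [← pow_add, ← pow_add, add_comm]
  generalize w ^ (p * (p - 1)) = x at hr2 hr3 hxs ⊢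
  generalize w ^ (m * q) = s at hr1 hxs
  have hpow := comm_pow x c s g hr1 hxs hr2
  have hWd : Wd x c p N ω ∈ Subgroup.centralizer ({x} : Set G) := by
    unfold Wd
    refine Subgroup.list_prod_mem _ fun y hy => ?_
    rw [List.mem_map] at hy
    obtain ⟨r, hr, rfl⟩ := hy
    rw [List.mem_range] at hr
    refine lift_mem _ _ (fun k => ?_) _
    obtain ⟨n, hn⟩ := (hN r hr k).1
    rw [Subgroup.mem_centralizer_singleton_iff, hn]
    exact (hpow n).symm
  have hcx : Commute (c ^ (p ^ 2)) x := by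
    rw [hr3]
    exact Subgroup.mem_centralizer_singleton_iff.1 hWd
  have hcj : ∀ j : ℤ, Commute (c ^ (p ^ 2)) (xl x c j) := by
    intro j
    unfold xl
    have h1 : ∀ i : ℤ, Commute (c ^ (p ^ 2)) (c ^ i) := fun i =>
      ((Commute.refl c).pow_left _).zpow_right i
    exact ((h1 (-j)).mul_right hcx).mul_right (h1 j)
  have hper : ∀ i j : ℤ, (i : ZMod (p ^ 2)) = (j : ZMod (p ^ 2)) → xl x c i = xl x c j := by
    intro i j hij
    have h1 : ((p ^ 2 : ℕ) : ℤ) ∣ i - j := (ZMod.intCast_eq_intCast_iff_dvd_sub j i (p ^ 2)).1 hij.symm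
    obtain ⟨t, ht⟩ := h1
    have h2 : i = j + ((p ^ 2 : ℕ) : ℤ) * t := by linarith
    rw [h2, ← xl_conj_c x c (((p ^ 2 : ℕ) : ℤ) * t) j]
    have h3 : c ^ (((p ^ 2 : ℕ) : ℤ) * t) = (c ^ (p ^ 2)) ^ t := by
      rw [zpow_mul, zpow_natCast]
    have h4 : c ^ (-(((p ^ 2 : ℕ) : ℤ) * t)) = ((c ^ (p ^ 2)) ^ t)⁻¹ := by
      rw [zpow_neg, h3]
    rw [h3, h4, mul_assoc, ← ((hcj j).zpow_left t).eq, inv_mul_cancel_left]
  refine ⟨fun j => (hcj j).eq, hper, ?_⟩
  intro i j hij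
  have h1 : ¬ (p : ℤ) ∣ j - i := by
    intro h
    apply hij
    have := (dvd_neg (a := (p : ℤ)) (b := j - i)).2 h
    rwa [neg_sub] at this
  obtain ⟨n, hn⟩ := hP.prim (j - i) h1
  have h2 : xl x c ((g ^ n : ℕ) : ℤ) = xl x c (j - i) := by
    apply hper
    rw [← hn]
    push_cast
    rfl
  have h3 := hpow n
  rw [h2] at h3
  have h4 : xl x c i = c ^ (-i) * x * c ^ i := rfl
  have h5 : xl x c j = c ^ (-i) * xl x c (j - i) * c ^ i := by
    rw [xl_conj_c, sub_add_cancel]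
  rw [h4, h5]
  calc c ^ (-i) * x * c ^ i * (c ^ (-i) * xl x c (j - i) * c ^ i)
      = c ^ (-i) * (x * xl x c (j - i)) * c ^ i := by group
    _ = c ^ (-i) * (xl x c (j - i) * x) * c ^ i := by rw [h3]
    _ = c ^ (-i) * xl x c (j - i) * c ^ i * (c ^ (-i) * x * c ^ i) := by group

end Pool.Agent.Helper95.GP
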